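import Pool.Agent.H87.SN.Targets

/-! # Straight necks of stationary harmonic maps (MP_2697e3_an): row PR2

The profile in dimension three. -/

set_option autoImplicit false

namespace Pool.Agent.H74.SN

open Pool.Agent.H87.SN
open MeasureTheory Metric Set Filter Topology
open scoped ContDiff RealInnerProductSpace

/-- the half plane -/
theorem isOpen_half : IsOpen {p : ℝ × ℝ | 0 < p.1} := isOpen_lt continuous_const continuous_fst

theorem isOpen_half' : IsOpen {p : ℝ × E 1 | 0 < p.1} := isOpen_lt continuous_const continuous_fst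

theorem hasFD {F : ℝ × ℝ → ℝ} (hF : ContDiffOn ℝ 1 F {p | 0 < p.1}) {s τ : ℝ} (hs : 0 < s) :
    HasFDerivAt F (fderiv ℝ F (s, τ)) (s, τ) :=
  ((hF.differentiableOn (by norm_num)).differentiableAt
    (isOpen_half.mem_nhds (show 0 < (s, τ).1 from hs))).hasFDerivAt

theorem hasD1 {F : ℝ × ℝ → ℝ} (hF : ContDiffOn ℝ 1 F {p | 0 < p.1}) {s τ : ℝ} (hs : 0 < s) :
    HasDerivAt (fun x => F (x, τ)) (fderiv ℝ F (s, τ) (1, 0)) s := by
  have h1 : HasDerivAt (fun x : ℝ => (x, τ)) ((1 : ℝ), (0 : ℝ)) s :=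
    (hasDerivAt_id s).prodMk (hasDerivAt_const s τ)
  exact HasFDerivAt.comp_hasDerivAt (f := fun x : ℝ => (x, τ)) s (hasFD hF hs) h1

theorem hasD2 {F : ℝ × ℝ → ℝ} (hF : ContDiffOn ℝ 1 F {p | 0 < p.1}) {s τ : ℝ} (hs : 0 < s) :
    HasDerivAt (fun y => F (s, y)) (fderiv ℝ F (s, τ) (0, 1)) τ := by
  have h1 : HasDerivAt (fun y : ℝ => (s, y)) ((0 : ℝ), (1 : ℝ)) τ :=
    (hasDerivAt_const τ s).prodMk (hasDerivAt_id τ)
  exact HasFDerivAt.comp_hasDerivAt (f := fun y : ℝ => (s, y)) τ (hasFD hF hs) h1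

/-- the projection `(s, z) ↦ (s, z 0)` -/
noncomputable def pr : ℝ × E 1 →L[ℝ] ℝ × ℝ :=
  (ContinuousLinearMap.fst ℝ ℝ (E 1)).prod
    ((EuclideanSpace.proj (0 : Fin 1)).comp (ContinuousLinearMap.snd ℝ ℝ (E 1)))

theorem pr_apply (p : ℝ × E 1) : pr p = (p.1, p.2 0) := rfl

theorem cd_comp {F : ℝ × ℝ → ℝ} (hF : ContDiffOn ℝ 1 F {p | 0 < p.1}) :
    ContDiffOn ℝ 1 (fun p : ℝ × E 1 => F (p.1, p.2 0)) {p | 0 < p.1} :=
  hF.comp pr.contDiff.contDiffOn (fun _ hp => hp)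

theorem fd_comp {F : ℝ × ℝ → ℝ} (hF : ContDiffOn ℝ 1 F {p | 0 < p.1}) (p : ℝ × E 1)
    (hp : 0 < p.1) :
    fderiv ℝ (fun p : ℝ × E 1 => F (p.1, p.2 0)) p (1, 0) = deriv (fun x => F (x, p.2 0)) p.1 ∧
    ∀ i : Fin 1, fderiv ℝ (fun p : ℝ × E 1 => F (p.1, p.2 0)) p (0, bv i) =
      deriv (fun y => F (p.1, y)) (p.2 0) := by
  have h1 : HasFDerivAt F (fderiv ℝ F (p.1, p.2 0)) (pr p) := hasFD hF hp
  have h2 : HasFDerivAt (fun p : ℝ × E 1 => F (p.1, p.2 0))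
      ((fderiv ℝ F (p.1, p.2 0)).comp pr) p := h1.comp p pr.hasFDerivAt
  refine ⟨?_, fun i => ?_⟩
  · rw [h2.fderiv, (hasD1 hF hp).deriv]
    rfl
  · rw [h2.fderiv, (hasD2 hF hp).deriv]
    have h3 : pr ((0 : ℝ), (bv i : E 1)) = (0, 1) := by
      rw [pr_apply]
      have : (bv i : E 1) 0 = 1 := by
        rw [Subsingleton.elim i 0]
        simp [bv]
      rw [this]
    rw [ContinuousLinearMap.comp_apply, h3]

theorem single_eq (z : E 1) : EuclideanSpace.single (0 : Fin 1) (z 0) = z := by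
  ext i
  rw [Subsingleton.elim i 0]
  simp

/-- the reciprocal of `s + J` satisfies the hypotheses on `W` -/
theorem recip (J : ℝ → ℝ → ℝ) (hpos : ∀ s τ : ℝ, 0 < s → 0 < J s τ)
    (hJ : ContDiffOn ℝ 1 (fun p : ℝ × ℝ => J p.1 p.2) {p | 0 < p.1})
    (h1 : ∀ s τ : ℝ, 0 < s → |s * deriv (fun x => J x τ) s| ≤ 3 / 2 * J s τ)
    (h2 : ∀ s τ : ℝ, 0 < s → |s * deriv (fun y => J s y) τ| ≤ 3 / 20 * J s τ) :
    ContDiffOn ℝ 1 (fun p : ℝ × ℝ => (p.1 + J p.1 p.2)⁻¹) {p | 0 < p.1} ∧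
    (∀ s τ : ℝ, 0 < s → 0 < (s + J s τ)⁻¹) ∧ (∀ s τ : ℝ, 0 < s → (s + J s τ)⁻¹ ≤ s⁻¹) ∧
    (∀ s τ : ℝ, 0 < s → |s * deriv (fun x => (x + J x τ)⁻¹) s| ≤ 3 / 2 * (s + J s τ)⁻¹) ∧
    (∀ s τ : ℝ, 0 < s → |s * deriv (fun y => (s + J s y)⁻¹) τ| ≤ 3 / 20 * (s + J s τ)⁻¹) := by
  have hsum : ∀ s τ : ℝ, 0 < s → 0 < s + J s τ := fun s τ hs => add_pos hs (hpos s τ hs)
  refine ⟨?_, fun s τ hs => inv_pos.2 (hsum s τ hs), fun s τ hs => ?_, fun s τ hs => ?_,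
    fun s τ hs => ?_⟩
  · exact (contDiff_fst.contDiffOn.add hJ).inv (fun p hp => (hsum p.1 p.2 hp).ne')
  · exact inv_anti₀ hs (by have := hpos s τ hs; linarith)
  · have hd : HasDerivAt (fun x => J x τ) (deriv (fun x => J x τ) s) s :=
      (hasD1 (F := fun p : ℝ × ℝ => J p.1 p.2) hJ hs).differentiableAt.hasDerivAt
    have hS := hsum s τ hs
    have hadd : HasDerivAt (fun x => x + J x τ) (1 + deriv (fun x => J x τ) s) s :=
      (hasDerivAt_id s).add hd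
    have hinv := hadd.inv hS.ne'
    have he : deriv (fun x => (x + J x τ)⁻¹) s =
        -(1 + deriv (fun x => J x τ) s) / (s + J s τ) ^ 2 := hinv.deriv
    rw [he]
    have h3 := abs_le.1 (h1 s τ hs)
    have hJp := hpos s τ hs
    have e1 : s * (-(1 + deriv (fun x => J x τ) s) / (s + J s τ) ^ 2) =
        (-(s + s * deriv (fun x => J x τ) s)) / (s + J s τ) ^ 2 := by ring
    have e2 : 3 / 2 * (s + J s τ)⁻¹ = (3 / 2 * (s + J s τ)) / (s + J s τ) ^ 2 := by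
      field_simp
    rw [e1, e2, abs_div, abs_of_pos (pow_pos hS 2), abs_neg]
    refine div_le_div_of_nonneg_right ?_ (pow_pos hS 2).le
    rw [abs_le]
    constructor <;> linarith [h3.1, h3.2]
  · have hd : HasDerivAt (fun y => J s y) (deriv (fun y => J s y) τ) τ :=
      (hasD2 (F := fun p : ℝ × ℝ => J p.1 p.2) hJ hs).differentiableAt.hasDerivAt
    have hS := hsum s τ hs
    have hadd : HasDerivAt (fun y => s + J s y) (0 + deriv (fun y => J s y) τ) τ :=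
      (hasDerivAt_const τ s).add hd
    have hinv := hadd.inv hS.ne'
    have he : deriv (fun y => (s + J s y)⁻¹) τ =
        -(0 + deriv (fun y => J s y) τ) / (s + J s τ) ^ 2 := hinv.deriv
    rw [he]
    have h3 := abs_le.1 (h2 s τ hs)
    have hJp := hpos s τ hs
    have e1 : s * (-(0 + deriv (fun y => J s y) τ) / (s + J s τ) ^ 2) =
        (-(s * deriv (fun y => J s y) τ)) / (s + J s τ) ^ 2 := by ring
    have e2 : 3 / 20 * (s + J s τ)⁻¹ = (3 / 20 * (s + J s τ)) / (s + J s τ) ^ 2 := by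
      field_simp
    rw [e1, e2, abs_div, abs_of_pos (pow_pos hS 2), abs_neg]
    refine div_le_div_of_nonneg_right ?_ (pow_pos hS 2).le
    rw [abs_le]
    constructor <;> linarith [h3.1, h3.2]

theorem pf_PR2 (hJC1 : T_JC1) (hJLB : T_JLB) (hHC1 : T_HC1) : T_PR2 := by
  intro M
  obtain ⟨c, hc, hLB⟩ := hJLB M
  refine ⟨max 2 (1 / c), le_max_of_le_left (by norm_num), fun r hr hr1 hrM => ?_⟩
  set r1 : ℝ → ℝ := fun t => r (EuclideanSpace.single 0 t) with hr1def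
  let ℓ : ℝ →L[ℝ] E 1 := (1 : ℝ →L[ℝ] ℝ).smulRight (bv 0 : E 1)
  have hℓ : ∀ t, ℓ t = EuclideanSpace.single 0 t := by
    intro t
    ext i
    rw [Subsingleton.elim i 0]
    simp [ℓ, bv]
  have hr1e : r1 = r ∘ ℓ := by
    funext t
    rw [hr1def, Function.comp_apply, hℓ]
  have hr1C : ContDiff ℝ 1 r1 := by
    rw [hr1e]
    exact hr.comp ℓ.contDiff
  have hr1d : ∀ t, |deriv r1 t| ≤ M := by
    intro t
    have h1 : HasFDerivAt r (fderiv ℝ r (ℓ t)) (ℓ t) :=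
      (hr.differentiable (by norm_num) _).hasFDerivAt
    have h2 : HasFDerivAt (r ∘ ℓ) ((fderiv ℝ r (ℓ t)).comp ℓ) t := h1.comp t ℓ.hasFDerivAt
    have h3 : deriv r1 t = fderiv ℝ r (ℓ t) (bv 0) := by
      rw [hr1e, ← fderiv_apply_one_eq_deriv, h2.fderiv, ContinuousLinearMap.comp_apply]
      congr 1
      simp [ℓ]
    rw [h3, ← Real.norm_eq_abs]
    refine (ContinuousLinearMap.le_opNorm _ _).trans ?_
    have h4 : ‖(bv 0 : E 1)‖ = 1 := by simp [bv]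
    rw [h4, mul_one]
    exact hrM _
  have hr1p : ∀ t, 0 < r1 t ∧ r1 t ≤ 1 := fun t => hr1 _
  obtain ⟨hJpos, hJcd, hJ1, hJ2⟩ := hJC1 r1 hr1C.continuous (fun t => (hr1p t).1)
  obtain ⟨hWcd, hWpos, hWle, hW1, hW2⟩ := recip (Jf r1) hJpos hJcd hJ1 hJ2
  obtain ⟨H, hHcd, hHpos, hHeq, hH3, hH4, hH5⟩ := hHC1
    (fun p : ℝ × ℝ => (p.1 + Jf r1 p.1 p.2)⁻¹) hWcd hWpos hWle hW1 hW2
  refine ⟨fun p => H (p.1, p.2 0), ?_⟩
  have hWF : ∀ p : ℝ × E 1, 0 < p.1 → _ := fun p hp =>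
    fd_comp (F := fun p : ℝ × ℝ => (p.1 + Jf r1 p.1 p.2)⁻¹) hWcd p hp
  have hHF : ∀ p : ℝ × E 1, 0 < p.1 → _ := fun p hp => fd_comp hHcd p hp
  refine ⟨cd_comp hHcd, cd_comp (F := fun p : ℝ × ℝ => (p.1 + Jf r1 p.1 p.2)⁻¹) hWcd,
    fun p hp => hHpos _ _ hp, fun p hp => hWpos _ _ hp, fun p hp => ?_, fun p hp => ?_,
    fun p hp => ?_, fun p hp => hH3 _ _ hp, fun p hp => ?_, fun p hp _ => ?_,
    fun p hp hp2 => ?_, fun p hp _ hn hpr => ?_⟩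
  · rw [(hHF p hp).1]
    exact hHeq p.1 (p.2 0) hp
  · rw [(hWF p hp).1]
    exact hW1 p.1 (p.2 0) hp
  · rw [Fin.sum_univ_one, (hWF p hp).2 0, ← mul_pow]
    have h1 := hW2 p.1 (p.2 0) hp
    have h2 := hWpos p.1 (p.2 0) hp
    have h3 := sq_le_sq' (abs_le.1 h1).1 (abs_le.1 h1).2
    refine h3.trans ?_
    show (3 / 20 * (p.1 + Jf r1 p.1 (p.2 0))⁻¹) ^ 2 ≤ 1 / 4 * (p.1 + Jf r1 p.1 (p.2 0))⁻¹ ^ 2
    nlinarith [sq_nonneg (p.1 + Jf r1 p.1 (p.2 0))⁻¹]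
  · rw [Fin.sum_univ_one, (hHF p hp).2 0, ← mul_pow]
    exact hH4 p.1 (p.2 0) hp
  · refine (hH5 p.1 (p.2 0) hp).trans ((by norm_num : (1 : ℝ) ≤ 2).trans (le_max_left _ _))
  · have h1 := hWle p.1 (p.2 0) hp
    have h2 : p.1 ^ 2 * (p.1 + Jf r1 p.1 (p.2 0))⁻¹ ≤ p.1 ^ 2 * p.1⁻¹ :=
      mul_le_mul_of_nonneg_left h1 (sq_nonneg _)
    have h3 : p.1 ^ 2 * p.1⁻¹ = p.1 := by field_simp
    rw [h3] at h2
    exact h2.trans (hp2.trans (le_max_left _ _))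
  · have h0 : r1 (p.2 0) = r p.2 := by
      show r (EuclideanSpace.single 0 (p.2 0)) = r p.2
      rw [single_eq]
    have h1 := hLB r1 hr1C hr1p hr1d p.1 (p.2 0) hp (by
      have := EuclideanSpace.norm_eq p.2
      rw [Fin.sum_univ_one, Real.sqrt_sq (norm_nonneg _), Real.norm_eq_abs] at this
      rw [← this]
      exact hn) (by rw [h0]; exact hpr)
    have h2 : (p.1 + Jf r1 p.1 (p.2 0))⁻¹ ≤ c⁻¹ := inv_anti₀ hc (by linarith)
    refine h2.trans (le_trans ?_ (le_max_right _ _))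
    rw [one_div]

end Pool.Agent.H74.SN
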